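import Pool.Agent.Work.MP_db9399_hc.Single
import Pool.Agent.Work.MP_db9399_hc_helper34.T1H
import Pool.Agent.Work.MP_db9399_hc_helper34.GROWH
import Pool.Agent.Work.MP_db9399_hc_helper34.CAPEH
import Pool.Agent.Work.MP_db9399_hc_helper83.RND1H
import Pool.Agent.Work.MP_db9399_hc_helper83.CORE

/-! THEOREM OUT, block CORE (helper34, helper83). -/

set_option autoImplicit false

namespace Pool.Agent.Work.MP_db9399_ot.helper34

universe u

/-- Block CORE. -/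
theorem stmt_CORE (hSXP : MP_db9399_lc.Stmt_SXP.{u}) (hSXR : MP_db9399_bg.Stmt_SXR.{u})
    (hT1 : MP_db9399_lc.Stmt_T1.{u}) (hPAT : MP_db9399_lh.Stmt_PAT)
    (hDEEPF : MP_db9399_bg.Stmt_DEEPF.{u}) (hHIT2 : MP_db9399_bg.Stmt_HIT2.{u})
    (hTUT2 : MP_db9399_bg.Stmt_TUT2.{u}) : MP_db9399_ot.Stmt_CORE.{u} :=
  MP_db9399_hc.helper83.stmt_CORE_of
    (MP_db9399_hc.rnd1_of (MP_db9399_hc.helper83.stmt_RND1H hSXP hSXR
      (MP_db9399_hc.helper34.stmt_T1H hT1) hPAT MP_db9399_hc.helper34.stmt_GROWH hDEEPF hHIT2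
      hTUT2))
    (MP_db9399_hc.cape_of (MP_db9399_hc.helper34.stmt_CAPEH (MP_db9399_hc.helper34.stmt_T1H hT1)
      hPAT MP_db9399_hc.helper34.stmt_GROWH hDEEPF))

end Pool.Agent.Work.MP_db9399_ot.helper34
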