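import Pool.Agent.Work.MP_db9399_ot.Base
import Pool.Agent.Work.MP_db9399_lh_helper34.LEFT

/-!
# LEFT: the leftover edges (THEOREM OUT)

After the rounds of the colours `e x` the edges which are neither final reserve edges nor in the
near-decomposition form a graph of maximum degree at most `D / (L (S + 1)) + 6 d / N`; Vizing's
theorem gives the matchings.
-/

set_option autoImplicit false

namespace Pool.Agent.Work.MP_db9399_ot.helper34

open Finset Classical
open Pool.Agent.Work.MP_db9399_all (nb)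
open Pool.Agent.Work.MP_db9399_dn (IsMat)
open Pool.Agent.Work.MP_db9399_bg (den cl LabP Lbl bx c3f c3 rs rs_symm Ix mem_nb mem_cl mem_bx
  den_bx den_cell den_nonneg card_univ_zmod card_univ_fin natCast_inj natCast_eq_neg mem_c3)
open Pool.Agent.Work.MP_db9399_lc (BL)
open Pool.Agent.Work.MP_db9399_lc.helper34 (card_nrs exists_h)
open Pool.Agent.Work.MP_db9399_lh (Cr Lh ce su kp io sp pt cr cy rf rx rr tj ty fq f0 ft Rf Rr)
open Pool.Agent.Work.MP_db9399_lh.helper34 (den_nrf den_ce sum_ft ty_not_rf)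
open Pool.Agent.Work.MP_db9399_ot

universe u

section
variable {V : Type u} [Fintype V] {l m r K K1 S w n : ℕ}

/-- the leftover graph -/
def LO (G H : SimpleGraph V) (UH : Finset V) (lab : V → Lh l m r K K1 S)
    (Nd M : Ix m w → SimpleGraph V) : SimpleGraph V where
  Adj v v' := G.Adj v v' ∧ v ∉ UH ∧ v' ∉ UH ∧ ¬ (Rf H UH lab).Adj v v' ∧
    (∀ x, ¬ (Nd x).Adj v v') ∧ ∀ x, ¬ (M x).Adj v v'
  symm := ⟨fun _ _ h => ⟨h.1.symm, h.2.2.1, h.2.1, fun h' => h.2.2.2.1 h'.symm,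
    fun x hx => h.2.2.2.2.1 x hx.symm, fun x hx => h.2.2.2.2.2 x hx.symm⟩⟩
  loopless := ⟨fun v h => G.loopless.irrefl v h.1⟩

/-- the matchings with centre `a0` and numbers in `J` at a vertex of the cell `a0 ± (h + 1)` -/
theorem nd_count {ν : ℕ} {H : SimpleGraph V} {Gc : Fin n → SimpleGraph V} {UH : Finset V}
    {lab : V → Lh l m r K K1 S} {τ : Fin w → Option (ZMod 3)} {ι : Fin w → Option (Fin n)}
    {Nd : Ix m w → SimpleGraph V} (hN : NDec ν H Gc UH lab τ ι Nd) (v : V) (hv : v ∉ UH)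
    (a0 : ZMod (2 * m + 1)) (hne : ce (lab v) ≠ a0) (hk : kp (lab v) ≠ a0)
    (J : Finset (Fin w)) (hJ : ∀ s ∈ J, τ s ≠ some (pt (lab v))) :
    ∃ Z : Finset V, (m - 1) * J.card ≤ Z.card ∧
      ∀ z ∈ Z, ∃ x, x.2.2 ∈ J ∧ (Nd x).Adj v z ∧ ce (lab v) + ce (lab z) = 2 * a0 := by
  obtain ⟨h, hh⟩ := exists_h (ce (lab v) - a0) (sub_ne_zero.mpr hne)
  -- the indices
  have hc : ∀ y : Fin m × Fin w, y.1 ≠ h → ce (lab v) ∉ c3 a0 y.1 := by
    intro y hy hmem
    rw [mem_c3] at hmem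
    have hy1 : (y.1 : ℕ) ≠ (h : ℕ) := fun hE => hy (Fin.ext hE)
    have b1 := y.1.2
    have b2 := h.2
    rcases hmem with h0 | h0 | h0
    · exact hne h0
    · have h1 : ce (lab v) - a0 = (((y.1 : ℕ) + 1 : ℕ) : ZMod (2 * m + 1)) := by
        rw [h0]; ring
      rw [h1] at hh
      rcases hh with hh | hh
      · have := natCast_inj (by omega) (by omega) hh
        omega
      · exact natCast_eq_neg (by omega) (by omega) hh
    · have h1 : ce (lab v) - a0 = -(((y.1 : ℕ) + 1 : ℕ) : ZMod (2 * m + 1)) := by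
        rw [h0]; ring
      rw [h1] at hh
      rcases hh with hh | hh
      · exact natCast_eq_neg (by omega) (by omega) hh.symm
      · have := natCast_inj (by omega) (by omega) (neg_injective hh)
        omega
  have hcov : ∀ y : Fin m × Fin w, y.1 ≠ h → τ y.2 ≠ some (pt (lab v)) →
      ∃ z, (Nd (a0, y)).Adj v z := by
    intro y hy hty
    have := hN.cov (a0, y) v hv (hc y hy) hty (fun h0 => hk h0.1)
    obtain ⟨z, hz⟩ := this
    exact ⟨z, mem_nb.mp hz⟩
  haveI : Nonempty V := ⟨v⟩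
  choose! f hf using hcov
  let I : Finset (Fin m × Fin w) := (univ.filter (fun h' : Fin m => h' ≠ h)) ×ˢ J
  have hI : ∀ y ∈ I, y.1 ≠ h ∧ y.2 ∈ J := by
    intro y hy
    have := mem_product.mp hy
    exact ⟨(mem_filter.mp this.1).2, this.2⟩
  refine ⟨I.image f, ?_, ?_⟩
  · rw [card_image_of_injOn]
    · have h1 : (univ.filter (fun h' : Fin m => h' ≠ h)).card = m - 1 := by
        rw [filter_ne', card_erase_of_mem (mem_univ _), card_univ, Fintype.card_fin]
      rw [card_product, h1]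
    · intro y hy y' hy' hE
      by_contra hne'
      have h1 := hf y (hI y hy).1 (hJ _ (hI y hy).2)
      have h2 := hf y' (hI y' hy').1 (hJ _ (hI y' hy').2)
      rw [← hE] at h2
      exact hN.dis (a0, y) (a0, y') (fun h0 => hne' (Prod.ext_iff.mp h0).2) v (f y) h1 h2
  · intro z hz
    obtain ⟨y, hy, rfl⟩ := mem_image.mp hz
    have h1 := hf y (hI y hy).1 (hJ _ (hI y hy).2)
    exact ⟨(a0, y), (hI y hy).2, h1, (hN.adj _ _ _ h1).2.2⟩

/-- a set whose cells are small except for two -/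
theorem sum_two (lab : V → Lh l m r K K1 S) (X : Finset V) (a a' : ZMod (2 * m + 1))
    (A0 A1 : ℝ) (h0 : 0 ≤ A0) (h1 : 0 ≤ A1)
    (hcell : ∀ b, ((X.filter (fun z => ce (lab z) = b)).card : ℝ) ≤ A1)
    (hgen : ∀ b, b ≠ a → b ≠ a' → ((X.filter (fun z => ce (lab z) = b)).card : ℝ) ≤ A0) :
    (X.card : ℝ) ≤ (2 * m + 1) * A0 + 2 * A1 := by
  have hbd : ∀ b : ZMod (2 * m + 1), ((X.filter (fun z => ce (lab z) = b)).card : ℝ) ≤
      A0 + ((if b = a then A1 else 0) + (if b = a' then A1 else 0)) := by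
    intro b
    have hc := hcell b
    by_cases hb1 : b = a
    · rw [if_pos hb1]
      split_ifs <;> linarith
    · by_cases hb2 : b = a'
      · rw [if_neg hb1, if_pos hb2]
        linarith
      · rw [if_neg hb1, if_neg hb2]
        have := hgen b hb1 hb2
        linarith
  have hsum : (X.card : ℝ) = ∑ b : ZMod (2 * m + 1),
      ((X.filter (fun z => ce (lab z) = b)).card : ℝ) := by
    have := card_eq_sum_card_fiberwise (s := X)
      (t := (univ : Finset (ZMod (2 * m + 1)))) (f := fun z => ce (lab z))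
      (fun z _ => by simp)
    exact_mod_cast this
  rw [hsum]
  refine (sum_le_sum (fun b _ => hbd b)).trans ?_
  rw [sum_add_distrib, sum_const, card_univ, ZMod.card, sum_add_distrib,
    sum_ite_eq' univ a, if_pos (mem_univ _), sum_ite_eq' univ a', if_pos (mem_univ _),
    nsmul_eq_mul]
  push_cast
  linarith

/-- the leftover neighbours in one graph `Γ` with label set `Qb b` in the cell `b` -/
theorem part_deg {ν : ℕ} {H : SimpleGraph V} {Gc : Fin n → SimpleGraph V} {UH : Finset V}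
    {lab : V → Lh l m r K K1 S} {τ : Fin w → Option (ZMod 3)} {ι : Fin w → Option (Fin n)}
    {Nd : Ix m w → SimpleGraph V} (hN : NDec ν H Gc UH lab τ ι Nd) (v : V) (hv : v ∉ UH)
    (hm : 1 ≤ m) (Γ : SimpleGraph V) (D : ℕ) (σ c1 q B α : ℝ) (hL : LabP Γ D σ c1 lab)
    (hB0 : 0 ≤ B) (hα : 0 ≤ α)
    (hB : ((nb Γ v).card : ℝ) ≤ B) (X : Finset V) (hX : X ⊆ nb Γ v)
    (Qb : ZMod (2 * m + 1) → Finset (Lh l m r K K1 S))
    (hQd : ∀ b, den (Qb b) = q / (2 * m + 1)) (hq0 : 0 ≤ q)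
    (J : Finset (Fin w)) (hJ : ∀ s ∈ J, τ s ≠ some (pt (lab v)))
    (hQX : ∀ b, b ≠ ce (lab v) → ∀ z ∈ X, ce (lab z) = b → lab z ∈ Qb b)
    (hQN : ∀ x z, x.2.2 ∈ J → (Nd x).Adj v z → Γ.Adj v z ∧ lab z ∈ Qb (ce (lab z)))
    (hXN : ∀ x, ∀ z ∈ X, ¬ (Nd x).Adj v z)
    (hα1 : q * B / (2 * m + 1) ≤ α + ((m : ℝ) - 1) * J.card) :
    (X.card : ℝ) ≤ (2 * m + 1) * (α + σ * D) + 2 * (B / (2 * m + 1) + σ * D) := by
  have hNpos : (0 : ℝ) < 2 * (m : ℝ) + 1 := by positivity
  have hσ : 0 ≤ σ * D := by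
    have h1 := hL.deg v ∅
    exact le_trans (abs_nonneg _) h1
  refine sum_two lab X (ce (lab v)) (2 * kp (lab v) - ce (lab v)) _ _ (by positivity)
    (by positivity) ?_ ?_
  · intro b
    have h1 := hL.deg v (univ.filter (fun t => ce t = b))
    rw [den_ce] at h1
    have h2 := (abs_le.mp h1).2
    have h3 : (X.filter (fun z => ce (lab z) = b)) ⊆
        nb Γ v ∩ cl lab (univ.filter (fun t => ce t = b)) := by
      intro z hz
      rw [mem_filter] at hz
      rw [mem_inter, mem_cl, mem_filter]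
      exact ⟨hX hz.1, mem_univ _, hz.2⟩
    have h4 : ((X.filter (fun z => ce (lab z) = b)).card : ℝ) ≤
        ((nb Γ v ∩ cl lab (univ.filter (fun t => ce t = b))).card : ℝ) := by
      exact_mod_cast card_le_card h3
    have h5 : 1 / (2 * (m : ℝ) + 1) * ((nb Γ v).card : ℝ) ≤ B / (2 * m + 1) := by
      rw [one_div_mul_eq_div]
      exact div_le_div_of_nonneg_right hB hNpos.le
    linarith
  · intro b hb1 hb2
    obtain ⟨a0, ha0⟩ : ∃ a0 : ZMod (2 * m + 1), 2 * a0 = ce (lab v) + b := by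
      refine ⟨((m : ZMod (2 * m + 1)) + 1) * (ce (lab v) + b), ?_⟩
      have h2 : ((2 * m + 1 : ℕ) : ZMod (2 * m + 1)) = 0 := ZMod.natCast_self _
      push_cast at h2
      linear_combination (ce (lab v) + b) * h2
    have hne : ce (lab v) ≠ a0 := by
      intro h0
      apply hb1
      rw [← h0] at ha0
      linear_combination -ha0
    have hkk : kp (lab v) ≠ a0 := by
      intro h0
      apply hb2
      rw [← h0] at ha0
      linear_combination -ha0
    obtain ⟨Z, hS1, hS2⟩ := nd_count hN v hv a0 hne hkk J hJ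
    have hdis : Disjoint Z (X.filter (fun z => ce (lab z) = b)) := by
      rw [disjoint_left]
      intro z hz1 hz2
      obtain ⟨x, _, hx, _⟩ := hS2 z hz1
      exact hXN x z (mem_filter.mp hz2).1 hx
    have hsub : Z ∪ (X.filter (fun z => ce (lab z) = b)) ⊆ nb Γ v ∩ cl lab (Qb b) := by
      intro z hz
      rw [mem_inter, mem_cl]
      rcases mem_union.mp hz with hz | hz
      · obtain ⟨x, hxJ, hx, h2⟩ := hS2 z hz
        obtain ⟨h3, h4⟩ := hQN x z hxJ hx
        have h5 : ce (lab z) = b := by linear_combination h2 + ha0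
        rw [h5] at h4
        exact ⟨mem_nb.mpr h3, h4⟩
      · rw [mem_filter] at hz
        exact ⟨hX hz.1, hQX b hb1 z hz.1 hz.2⟩
    have hcard : (Z.card : ℝ) + ((X.filter (fun z => ce (lab z) = b)).card : ℝ) ≤
        ((nb Γ v ∩ cl lab (Qb b)).card : ℝ) := by
      have := card_le_card hsub
      rw [card_union_of_disjoint hdis] at this
      exact_mod_cast this
    have h1 := (abs_le.mp (hL.deg v (Qb b))).2
    rw [hQd b] at h1
    have h2 : q / (2 * (m : ℝ) + 1) * ((nb Γ v).card : ℝ) ≤ q * B / (2 * m + 1) := by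
      rw [div_mul_eq_mul_div]
      exact div_le_div_of_nonneg_right (mul_le_mul_of_nonneg_left hB hq0) hNpos.le
    have hS4 : ((m : ℝ) - 1) * J.card ≤ Z.card := by
      have h3 : (((m - 1) * J.card : ℕ) : ℝ) ≤ Z.card := by exact_mod_cast hS1
      rw [Nat.cast_mul, Nat.cast_sub hm] at h3
      simpa using h3
    linarith

/-- the degrees of the leftover graph -/
theorem LO_deg (hl : 3 ≤ l) (hm : 2 ≤ m) {ν : ℕ} {g gh ε σ c1 : ℝ} {G H Q : SimpleGraph V}
    {Gc : Fin n → SimpleGraph V} {UH : Finset V} {d D : ℕ} {lab : V → Lh l m r K K1 S}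
    {τ : Fin w → Option (ZMod 3)} {ι : Fin w → Option (Fin n)}
    {Nd M : Ix m w → SimpleGraph V} (hε : 0 ≤ ε) (hε1 : ε ≤ 1 / (8 * (2 * m + 1)))
    (hσ1 : σ ≤ 1 / (4 * (2 * m + 1) ^ 2))
    (hS : Sit g gh ε σ c1 G H Q Gc d D lab) (hN : NDec ν H Gc UH lab τ ι Nd)
    (hιτ : ∀ s, ι s ≠ none → τ s = none)
    (hw : ∀ t, (1 - 2 / (2 * m + 1)) * (ft l S ν t * D / (2 * m + 1)) ≤
        ((m : ℝ) - 1) * (univ.filter (fun s => ι s = none ∧ τ s = t)).card)
    (hwc : ∀ i, (1 - 2 / (2 * m + 1)) * ((D : ℝ) / (2 * m + 1)) ≤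
        ((m : ℝ) - 1) * (univ.filter (fun s => ι s = some i)).card) (v : V) :
    ((nb (LO G H UH lab Nd M) v).card : ℝ) ≤ (D : ℝ) / ((2 * l + 1) * (S + 1)) +
      6 * d / (2 * m + 1) := by
  have hNpos : (0 : ℝ) < 2 * (m : ℝ) + 1 := by positivity
  have hN5 : (5 : ℝ) ≤ 2 * (m : ℝ) + 1 := by
    have : (2 : ℝ) ≤ m := by exact_mod_cast hm
    linarith
  have hD0 : (0 : ℝ) ≤ D := Nat.cast_nonneg _
  have hd0 : (0 : ℝ) ≤ d := Nat.cast_nonneg _
  have hn0 : (0 : ℝ) ≤ n := Nat.cast_nonneg _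
  by_cases hvU : v ∉ UH
  swap
  · have : nb (LO G H UH lab Nd M) v = ∅ := by
      rw [eq_empty_iff_forall_notMem]
      intro z hz
      rw [mem_nb] at hz
      exact hvU hz.2.1
    rw [this, card_empty]
    push_cast
    positivity
  -- the parts
  set XH : Finset V := (nb (LO G H UH lab Nd M) v).filter (fun z => H.Adj v z) with hXH
  set X : Fin n → Finset V := fun i =>
    (nb (LO G H UH lab Nd M) v).filter (fun z => (Gc i).Adj v z) with hXd
  have hcover : nb (LO G H UH lab Nd M) v ⊆ XH ∪ univ.biUnion X := by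
    intro z hz
    have hz' := mem_nb.mp hz
    rcases hS.cls.cov v z hz'.1 with h | ⟨i, h⟩
    · exact mem_union_left _ (mem_filter.mpr ⟨hz, h⟩)
    · exact mem_union_right _ (mem_biUnion.mpr ⟨i, mem_univ _, mem_filter.mpr ⟨hz, h⟩⟩)
  have hcard : ((nb (LO G H UH lab Nd M) v).card : ℝ) ≤ (XH.card : ℝ) + ∑ i, ((X i).card : ℝ) := by
    have h1 := (card_le_card hcover).trans ((card_union_le _ _).trans
      (Nat.add_le_add_left card_biUnion_le _))
    exact_mod_cast h1
  have hσD : 0 ≤ σ * D := le_trans (abs_nonneg _) (hS.labH.deg v ∅)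
  -- the host
  have hhost : (XH.card : ℝ) ≤ (2 * m + 1) *
      (((D : ℝ) / ((2 * l + 1) * (S + 1)) / (2 * m + 1) + 2 * D / (2 * m + 1) ^ 2) + σ * D) +
      2 * ((D : ℝ) / (2 * m + 1) + σ * D) := by
    have hfs : f0 l S ν + 2 * fq l S ν =
        1 - 2 / (3 * (2 * (l : ℝ) + 1)) - 1 / ((2 * (l : ℝ) + 1) * ((S : ℝ) + 1)) := by
      unfold f0
      ring
    have h7 : f0 l S ν + 2 * fq l S ν ≤ 1 := by
      rw [hfs]
      have e1 : (0 : ℝ) ≤ 2 / (3 * (2 * (l : ℝ) + 1)) := by positivity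
      have e2 : (0 : ℝ) ≤ 1 / ((2 * (l : ℝ) + 1) * ((S : ℝ) + 1)) := by positivity
      linarith
    have hcol : (1 - 2 / (2 * (m : ℝ) + 1)) *
        ((f0 l S ν + 2 * fq l S ν) * D / (2 * m + 1)) ≤
        ((m : ℝ) - 1) * (univ.filter (fun s => ι s = none ∧
          τ s ≠ some (pt (lab v)))).card := by
      have h1 : (univ.filter (fun s => ι s = none ∧ τ s ≠ some (pt (lab v)))).card =
          ∑ t ∈ univ.erase (some (pt (lab v))),
            (univ.filter (fun s => ι s = none ∧ τ s = t)).card := by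
        have h2 := card_eq_sum_card_fiberwise
          (s := univ.filter (fun s => ι s = none ∧ τ s ≠ some (pt (lab v))))
          (t := univ.erase (some (pt (lab v)))) (f := τ) (by
            intro s hs
            have hs' := mem_coe.mp hs
            rw [mem_coe, mem_erase]
            exact ⟨(mem_filter.mp hs').2.2, mem_univ _⟩)
        rw [h2]
        apply sum_congr rfl
        intro t ht
        rw [mem_erase] at ht
        congr 1
        ext s
        rw [mem_filter, mem_filter, mem_filter]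
        constructor
        · rintro ⟨⟨h3, h5, _⟩, h4⟩
          exact ⟨h3, h5, h4⟩
        · rintro ⟨h3, h5, h4⟩
          exact ⟨⟨h3, h5, by rw [h4]; exact ht.1⟩, h4⟩
      rw [h1]
      push_cast
      rw [mul_sum, ← sum_ft ν (pt (lab v)), sum_mul, sum_div, mul_sum]
      exact sum_le_sum (fun t _ => hw t)
    refine part_deg hN v hvU (by omega) H D σ c1 (1 - 2 / (3 * (2 * (l : ℝ) + 1))) D
      ((D : ℝ) / ((2 * l + 1) * (S + 1)) / (2 * m + 1) + 2 * D / (2 * m + 1) ^ 2) hS.labH hD0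
      (by positivity) (by exact_mod_cast hS.bh.deg v) XH ?_
      (fun b => univ.filter (fun t => ce t = b ∧ ¬ rf (cr (lab v)) (cr t))) ?_ ?_
      (univ.filter (fun s => ι s = none ∧ τ s ≠ some (pt (lab v)))) ?_ ?_ ?_ ?_ ?_
    · intro z hz
      exact mem_nb.mpr (mem_filter.mp hz).2
    · intro b
      exact den_nrf (by omega) b (cr (lab v))
    · have : 2 / (3 * (2 * (l : ℝ) + 1)) ≤ 1 := by
        rw [div_le_one (by positivity)]
        have : (0 : ℝ) ≤ l := Nat.cast_nonneg _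
        linarith
      linarith
    · intro s hs
      exact (mem_filter.mp hs).2.2
    · intro b hb z hz hzb
      have hz1 := mem_nb.mp (mem_filter.mp hz).1
      refine mem_filter.mpr ⟨mem_univ _, hzb, fun hrs => hz1.2.2.2.1
        ⟨(mem_filter.mp hz).2, hz1.2.1, hz1.2.2.1, ?_, hrs⟩⟩
      rw [hzb]
      exact fun h => hb h.symm
    · intro x z hx hz
      obtain ⟨h1, h2⟩ := hN.gh x (mem_filter.mp hx).2.1 v z hz
      exact ⟨h1, mem_filter.mpr ⟨mem_univ _, rfl, ty_not_rf hl h2⟩⟩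
    · intro x z hz hx
      exact (mem_nb.mp (mem_filter.mp hz).1).2.2.2.2.1 x hx
    · have h8 : (f0 l S ν + 2 * fq l S ν) * D / (2 * m + 1) ≤ D / (2 * m + 1) := by
        apply div_le_div_of_nonneg_right _ hNpos.le
        nlinarith
      have h9 : 2 / (2 * (m : ℝ) + 1) * ((f0 l S ν + 2 * fq l S ν) * D / (2 * m + 1)) ≤
          2 * D / (2 * m + 1) ^ 2 := by
        have e1 : 2 * (D : ℝ) / (2 * m + 1) ^ 2 =
            2 / (2 * (m : ℝ) + 1) * (D / (2 * m + 1)) := by
          field_simp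
        rw [e1]
        exact mul_le_mul_of_nonneg_left h8 (by positivity)
      have h10 : (1 - 2 / (3 * (2 * (l : ℝ) + 1))) * D / (2 * m + 1) =
          (f0 l S ν + 2 * fq l S ν) * D / (2 * m + 1) +
          (D : ℝ) / ((2 * l + 1) * (S + 1)) / (2 * m + 1) := by
        rw [hfs]
        field_simp
        ring
      have h11 : (1 - 2 / (2 * (m : ℝ) + 1)) * ((f0 l S ν + 2 * fq l S ν) * D / (2 * m + 1)) =
          (f0 l S ν + 2 * fq l S ν) * D / (2 * m + 1) -
          2 / (2 * (m : ℝ) + 1) * ((f0 l S ν + 2 * fq l S ν) * D / (2 * m + 1)) := by ring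
      rw [h10]
      linarith
  -- the classes
  have hclass : ∀ i, ((X i).card : ℝ) ≤ (2 * m + 1) *
      ((ε * D / (2 * m + 1) + 2 * D / (2 * m + 1) ^ 2) + σ * D) +
      2 * ((1 + ε) * D / (2 * m + 1) + σ * D) := by
    intro i
    have hreg : ((nb (Gc i) v).card : ℝ) ≤ (1 + ε) * D := by
      have := (abs_le.mp (hS.cls.reg i v)).2
      linarith
    refine part_deg hN v hvU (by omega) (Gc i) D σ c1 1 ((1 + ε) * D)
      (ε * D / (2 * m + 1) + 2 * D / (2 * m + 1) ^ 2) (hS.labc i) (by positivity)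
      (by positivity) hreg (X i) ?_
      (fun b => univ.filter (fun t => ce t = b)) ?_ zero_le_one
      (univ.filter (fun s => ι s = some i)) ?_ ?_ ?_ ?_ ?_
    · intro z hz
      exact mem_nb.mpr (mem_filter.mp hz).2
    · intro b
      exact den_ce b
    · intro s hs
      rw [hιτ s (by rw [(mem_filter.mp hs).2]; simp)]
      simp
    · intro b _ z _ hzb
      exact mem_filter.mpr ⟨mem_univ _, hzb⟩
    · intro x z hx hz
      exact ⟨hN.gc x i (mem_filter.mp hx).2 hz, mem_filter.mpr ⟨mem_univ _, rfl⟩⟩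
    · intro x z hz hx
      exact (mem_nb.mp (mem_filter.mp hz).1).2.2.2.2.1 x hx
    · have h1 := hwc i
      have e1 : (1 - 2 / (2 * (m : ℝ) + 1)) * ((D : ℝ) / (2 * m + 1)) =
          D / (2 * m + 1) - 2 * D / (2 * m + 1) ^ 2 := by
        field_simp
      have e2 : 1 * ((1 + ε) * (D : ℝ)) / (2 * m + 1) =
          D / (2 * m + 1) + ε * D / (2 * m + 1) := by ring
      rw [e1] at h1
      rw [e2]
      linarith
  have hsum : ∑ i, ((X i).card : ℝ) ≤ n * ((2 * m + 1) *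
      ((ε * D / (2 * m + 1) + 2 * D / (2 * m + 1) ^ 2) + σ * D) +
      2 * ((1 + ε) * D / (2 * m + 1) + σ * D)) := by
    refine (sum_le_sum fun i _ => hclass i).trans (le_of_eq ?_)
    rw [sum_const, card_univ, Fintype.card_fin, nsmul_eq_mul]
  -- numbers
  obtain ⟨N, hNd⟩ : ∃ N : ℝ, N = 2 * (m : ℝ) + 1 := ⟨_, rfl⟩
  rw [← hNd] at hhost hsum hε1 hσ1 hN5 hNpos ⊢
  have hdD := hS.cls.D_le
  have hx : 0 < 1 / N := by positivity
  obtain ⟨x, hxd⟩ : ∃ x : ℝ, x = 1 / N := ⟨_, rfl⟩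
  have hx0 : 0 < x := by rw [hxd]; exact hx
  have hx5 : x ≤ 1 / 5 := by
    rw [hxd]
    exact one_div_le_one_div_of_le (by norm_num) hN5
  have hNx : N * x = 1 := by rw [hxd]; field_simp
  have hεx : ε ≤ x / 8 := by
    refine hε1.trans (le_of_eq ?_)
    rw [hxd]; field_simp
  have hσx : N * (σ * D) ≤ x / 4 * D := by
    have h1 : σ * D ≤ 1 / (4 * N ^ 2) * D := mul_le_mul_of_nonneg_right hσ1 hD0
    calc N * (σ * D) ≤ N * (1 / (4 * N ^ 2) * D) := mul_le_mul_of_nonneg_left h1 hNpos.le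
      _ = x / 4 * D := by rw [hxd]; field_simp
  have hσx2 : σ * D ≤ x / 20 * D := by
    have h1 : 5 * (σ * D) ≤ N * (σ * D) := mul_le_mul_of_nonneg_right hN5 hσD
    linarith
  have e1 : N * (((D : ℝ) / ((2 * l + 1) * (S + 1)) / N + 2 * D / N ^ 2) + σ * D) +
      2 * ((D : ℝ) / N + σ * D) = (D : ℝ) / ((2 * l + 1) * (S + 1)) + 4 * x * D +
        N * (σ * D) + 2 * (σ * D) := by
    rw [hxd]
    field_simp
    ring
  have e2 : N * ((ε * D / N + 2 * D / N ^ 2) + σ * D) + 2 * ((1 + ε) * D / N + σ * D) =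
      ε * D + 4 * x * D + 2 * (ε * (x * D)) + N * (σ * D) + 2 * (σ * D) := by
    rw [hxd]
    field_simp
    ring
  rw [e1] at hhost
  rw [e2] at hsum
  have hxD : 0 ≤ x * D := mul_nonneg hx0.le hD0
  have hεD : ε * D ≤ x / 8 * D := mul_le_mul_of_nonneg_right hεx hD0
  have hεxD : ε * (x * D) ≤ 1 / 40 * (x * D) :=
    mul_le_mul_of_nonneg_right (by linarith) hxD
  have hcl : ε * D + 4 * x * D + 2 * (ε * (x * D)) + N * (σ * D) + 2 * (σ * D) ≤
      5 * (x * D) := by
    nlinarith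
  have hsum2 : ∑ i, ((X i).card : ℝ) ≤ n * (5 * (x * D)) :=
    hsum.trans (mul_le_mul_of_nonneg_left hcl hn0)
  have hh2 : (XH.card : ℝ) ≤ (D : ℝ) / ((2 * l + 1) * (S + 1)) + 5 * (x * D) := by
    nlinarith
  have e3 : 6 * (d : ℝ) / N = 6 * (x * d) := by rw [hxd]; ring
  rw [e3]
  have h5 : 5 * (x * (((n : ℝ) + 1) * D)) ≤ 5 * (x * ((1 + ε) * d)) := by
    refine mul_le_mul_of_nonneg_left (mul_le_mul_of_nonneg_left hdD hx0.le) (by norm_num)
  have h6 : 5 * (x * ((1 + ε) * d)) ≤ 6 * (x * d) := by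
    have h7 : (1 + ε) ≤ 6 / 5 := by linarith
    have h8 : (1 + ε) * (d : ℝ) ≤ 6 / 5 * d := mul_le_mul_of_nonneg_right h7 hd0
    have h9 := mul_le_mul_of_nonneg_left h8 hx0.le
    linarith
  have h7 : 5 * (x * (((n : ℝ) + 1) * D)) = n * (5 * (x * D)) + 5 * (x * D) := by ring
  linarith

end

theorem stmt_LEFT : Stmt_LEFT.{u} := by
  intro n l m r K K1 S ν hl hm hν
  have hNpos : (0 : ℝ) < 2 * (m : ℝ) + 1 := by positivity
  refine ⟨1 / (4 * (2 * (m : ℝ) + 1) ^ 2), 1 / (8 * (2 * (m : ℝ) + 1)), 2 * m + 1, by positivity,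
    by positivity, ?_⟩
  intro V _ G H Q Gc d D0 w W1 g gh c1 UH lab τ ι sy Nd M hd hS hN _ hιτ hw hwc hw1
  have hdR : 2 * (m : ℝ) + 1 ≤ d := by exact_mod_cast hd
  have h1 : (1 : ℝ) ≤ d / (2 * m + 1) := by
    rw [le_div_iff₀ hNpos]; linarith
  -- the number of colours
  obtain ⟨x0, hx0⟩ : ∃ x0 : ℝ, x0 = (D0 : ℝ) / ((2 * l + 1) * (S + 1)) +
      6 * d / (2 * m + 1) := ⟨_, rfl⟩
  have hx00 : 0 ≤ x0 := by rw [hx0]; positivity
  set D : ℕ := ⌊x0⌋₊ with hD
  have hD1 : (D : ℝ) ≤ x0 := Nat.floor_le hx00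
  have hDz : ∀ z, D + 1 ≤ (univ.filter (fun y => sy y = z)).card := by
    intro z
    have h2 := hw1 z
    have h3 : ((D + 1 : ℕ) : ℝ) ≤ ((univ.filter (fun y => sy y = z)).card : ℝ) := by
      push_cast
      have e1 : 8 * (d : ℝ) / (2 * m + 1) = 6 * (d : ℝ) / (2 * m + 1) +
        2 * (d / (2 * m + 1)) := by ring
      rw [e1] at h2
      rw [hx0] at hD1
      linarith
    exact_mod_cast h3
  have hdeg : ∀ v, (nb (LO G H UH lab Nd M) v).card ≤ D := by
    intro v
    apply Nat.le_floor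
    rw [hx0]
    exact LO_deg (M := M) hl hm (by positivity) le_rfl le_rfl hS hN hιτ hw hwc v
  obtain ⟨t, ht⟩ := MP_db9399_all.VIZ.vizing (LO G H UH lab Nd M) D hdeg
  let spp : V → Fin (K1 + 1) := fun v => sp (lab v)
  let Yz : Fin (K1 + 1) × Fin (K1 + 1) → Finset (Fin W1) := fun z =>
    univ.filter (fun y => sy y = z)
  let ix : Fin W1 → ℕ := fun y =>
    ((Yz (sy y)).equivFin ⟨y, mem_filter.mpr ⟨mem_univ _, rfl⟩⟩ : ℕ)
  have hix : ∀ y y', sy y = sy y' → ix y = ix y' → y = y' := by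
    intro y y' h h'
    have key : ∀ (z : Fin (K1 + 1) × Fin (K1 + 1)) (hz : sy y = z) (hz' : sy y' = z),
        ((Yz z).equivFin ⟨y, mem_filter.mpr ⟨mem_univ _, hz⟩⟩ : ℕ) =
          ((Yz z).equivFin ⟨y', mem_filter.mpr ⟨mem_univ _, hz'⟩⟩ : ℕ) → y = y' := by
      intro z hz hz' h0
      have h2 := (Yz z).equivFin.injective (Fin.ext h0)
      exact Subtype.ext_iff.mp h2
    have e1 : ix y' = ((Yz (sy y)).equivFin ⟨y', mem_filter.mpr ⟨mem_univ _, h.symm⟩⟩ : ℕ) := by
      have aux : ∀ (z : Fin (K1 + 1) × Fin (K1 + 1)) (hz : sy y' = z),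
          ((Yz (sy y')).equivFin ⟨y', mem_filter.mpr ⟨mem_univ _, rfl⟩⟩ : ℕ) =
            ((Yz z).equivFin ⟨y', mem_filter.mpr ⟨mem_univ _, hz⟩⟩ : ℕ) := by
        intro z hz
        subst hz
        rfl
      exact aux (sy y) h.symm
    rw [e1] at h'
    exact key (sy y) rfl h.symm h'
  have hex : ∀ (z : Fin (K1 + 1) × Fin (K1 + 1)) (i : ℕ), i < D + 1 →
      ∃ y, sy y = z ∧ ix y = i := by
    intro z i hi
    have hi2 : i < (Yz z).card := lt_of_lt_of_le hi (hDz z)
    refine ⟨((Yz z).equivFin.symm ⟨i, hi2⟩ : Fin W1), ?_, ?_⟩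
    · exact (mem_filter.mp ((Yz z).equivFin.symm ⟨i, hi2⟩).2).2
    · have aux : ∀ (y : Fin W1) (hz : sy y = z),
          ix y = ((Yz z).equivFin ⟨y, mem_filter.mpr ⟨mem_univ _, hz⟩⟩ : ℕ) := by
        intro y hz
        subst hz
        rfl
      rw [aux _ (mem_filter.mp ((Yz z).equivFin.symm ⟨i, hi2⟩).2).2]
      have : (⟨((Yz z).equivFin.symm ⟨i, hi2⟩ : Fin W1), _⟩ : {y // y ∈ Yz z}) =
          (Yz z).equivFin.symm ⟨i, hi2⟩ := rfl
      rw [this, Equiv.apply_symm_apply]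
  let Kk : Fin W1 → SimpleGraph V := fun y =>
    { Adj := fun v v' => (LO G H UH lab Nd M).Adj v v' ∧ t v v' = ix y ∧
        min (spp v) (spp v') = (sy y).1 ∧ max (spp v) (spp v') = (sy y).2
      symm := ⟨fun v v' h => ⟨h.1.symm, by rw [← ht.sym v v' h.1]; exact h.2.1,
        by rw [min_comm]; exact h.2.2.1, by rw [max_comm]; exact h.2.2.2⟩⟩
      loopless := ⟨fun v h => (LO G H UH lab Nd M).loopless.irrefl v h.1⟩ }
  refine ⟨Kk, ?_, ?_, ?_, ?_, ?_, ?_⟩
  · intro y v v' h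
    exact h.1.1
  · intro y v
    rw [card_le_one]
    intro z hz z' hz'
    rw [mem_nb] at hz hz'
    exact ht.inj v (by simpa [nb] using hz.1) (by simpa [nb] using hz'.1)
      (hz.2.1.trans hz'.2.1.symm)
  · intro y v v' h
    refine ⟨h.1.2.1, h.1.2.2.2.1, ?_⟩
    rcases le_total (spp v) (spp v') with hle | hle
    · left
      have := h.2.2.1
      rw [min_eq_left hle] at this
      exact this
    · right
      have := h.2.2.2
      rw [max_eq_left hle] at this
      exact this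
  · intro y y' hne v v' h h'
    apply hne
    have e1 : (sy y).1 = (sy y').1 := h.2.2.1.symm.trans h'.2.2.1
    have e2 : (sy y).2 = (sy y').2 := h.2.2.2.symm.trans h'.2.2.2
    exact hix y y' (Prod.ext e1 e2) (h.2.1.symm.trans h'.2.1)
  · intro y v v' h x
    exact ⟨h.1.2.2.2.2.1 x, h.1.2.2.2.2.2 x⟩
  · intro v v' hv hv' hG hW
    by_cases hx : ∃ x, (Nd x).Adj v v'
    · exact Or.inl hx
    · by_cases hx' : ∃ x, (M x).Adj v v'
      · exact Or.inr (Or.inl hx')
      · right; right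
        push Not at hx hx'
        have hLO : (LO G H UH lab Nd M).Adj v v' := ⟨hG, hv, hv', hW, hx, hx'⟩
        have hm1 := mem_range.mp (ht.mem v v' hLO)
        obtain ⟨y, hy1, hy2⟩ := hex (min (spp v) (spp v'), max (spp v) (spp v')) (t v v')
          (by omega)
        refine ⟨y, hLO, hy2.symm, ?_, ?_⟩
        · rw [hy1]
        · rw [hy1]

end Pool.Agent.Work.MP_db9399_ot.helper34
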